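import Pool.Agent.R59.DA.Stm

/-!
# The box theorem of Erdos for `r`-tuples
-/

set_option autoImplicit false
set_option linter.all false

namespace R59.DA.Box

open Finset

theorem step (t r : ℕ) (V : Type) [Fintype V] (H : Finset (Fin (r + 1) → V)) (ε : ℝ) (hε : 0 < ε)
    (hε1 : ε ≤ 1) (ht : 1 ≤ t) (hn : 4 * (t : ℝ) ≤ ε * Fintype.card V)
    (hH : ε * (Fintype.card V : ℝ) ^ (r + 1) ≤ H.card) :
    ∃ (S : Finset V) (H' : Finset (Fin r → V)), S.card = t ∧
      (∀ y ∈ H', ∀ x ∈ S, (Fin.cons x y : Fin (r + 1) → V) ∈ H) ∧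
      (ε / 4) ^ (t + 1) * (Fintype.card V : ℝ) ^ r ≤ H'.card := by
  classical
  set n : ℕ := Fintype.card V with hnd
  let F : (Fin r → V) → Finset V := fun y => univ.filter fun x => (Fin.cons x y : Fin (r + 1) → V) ∈ H
  let N : Finset V → Finset (Fin r → V) := fun S =>
    univ.filter fun y => ∀ x ∈ S, (Fin.cons x y : Fin (r + 1) → V) ∈ H
  have htR : (1 : ℝ) ≤ t := by exact_mod_cast ht
  have hn0 : (0 : ℝ) < n := by
    by_contra h
    have h1 : ε * (n : ℝ) ≤ 0 := mul_nonpos_of_nonneg_of_nonpos hε.le (not_lt.1 h)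
    linarith
  -- the sum of the degrees
  have h1 : (H.card : ℝ) ≤ ∑ y : Fin r → V, ((F y).card : ℝ) := by
    have h2 : H.card = ∑ y : Fin r → V, (H.filter fun a => Fin.tail a = y).card :=
      Finset.card_eq_sum_card_fiberwise (f := fun a : Fin (r + 1) → V => Fin.tail a)
        (fun _ _ => Finset.mem_coe.2 (mem_univ _))
    have h3 : H.card ≤ ∑ y : Fin r → V, (F y).card := by
      rw [h2]
      refine sum_le_sum fun y _ => ?_
      refine Finset.card_le_card_of_injOn (fun a => a 0) ?_ ?_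
      · intro a ha
        have ha' := mem_filter.1 (Finset.mem_coe.1 ha)
        refine Finset.mem_coe.2 (mem_filter.2 ⟨mem_univ _, ?_⟩)
        rw [← ha'.2, Fin.cons_self_tail]
        exact ha'.1
      · intro a ha b hb hab
        have ha' := mem_filter.1 (Finset.mem_coe.1 ha)
        have hb' := mem_filter.1 (Finset.mem_coe.1 hb)
        have hab' : a 0 = b 0 := hab
        rw [← Fin.cons_self_tail a, ← Fin.cons_self_tail b, ha'.2, hb'.2, hab']
    exact_mod_cast h3
  -- many `y` with a large degree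
  set Y : Finset (Fin r → V) := univ.filter fun y => ε / 2 * (n : ℝ) ≤ (F y).card with hY
  have hFn : ∀ y, ((F y).card : ℝ) ≤ n := fun y => by
    exact_mod_cast (card_le_univ (F y))
  have hcardr : ((univ : Finset (Fin r → V)).card : ℝ) = (n : ℝ) ^ r := by
    rw [card_univ, Fintype.card_fun, Fintype.card_fin]
    push_cast
    rfl
  have h4 : ε / 2 * (n : ℝ) ^ r ≤ Y.card := by
    have h5 : ∑ y : Fin r → V, ((F y).card : ℝ) ≤ Y.card * n + (n : ℝ) ^ r * (ε / 2 * n) := by
      rw [← Finset.sum_filter_add_sum_filter_not univ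
        (fun y => ε / 2 * (n : ℝ) ≤ ((F y).card : ℝ)) (fun y => ((F y).card : ℝ))]
      refine add_le_add ?_ ?_
      · refine (sum_le_sum fun y _ => hFn y).trans ?_
        rw [sum_const, nsmul_eq_mul]
      · refine (sum_le_sum (g := fun _ => ε / 2 * (n : ℝ)) fun y hy => ?_).trans ?_
        · exact (not_le.1 (mem_filter.1 hy).2).le
        · rw [sum_const, nsmul_eq_mul]
          refine mul_le_mul_of_nonneg_right ?_ (by positivity)
          rw [← hcardr]
          exact_mod_cast card_le_card (filter_subset _ _)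
    have h6 : ε * (n : ℝ) ^ (r + 1) ≤ Y.card * n + (n : ℝ) ^ r * (ε / 2 * n) :=
      hH.trans (h1.trans h5)
    rw [pow_succ] at h6
    have h7 : ε / 2 * (n : ℝ) ^ r * n ≤ Y.card * n := by nlinarith
    exact le_of_mul_le_mul_right h7 hn0
  -- counting
  have h8 : ∑ S ∈ powersetCard t (univ : Finset V), (N S).card =
      ∑ y : Fin r → V, (F y).card.choose t := by
    have h9 := Finset.sum_card_bipartiteAbove_eq_sum_card_bipartiteBelow
      (s := powersetCard t (univ : Finset V)) (t := (univ : Finset (Fin r → V)))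
      (fun (S : Finset V) (y : Fin r → V) => ∀ x ∈ S, (Fin.cons x y : Fin (r + 1) → V) ∈ H)
    refine Eq.trans ?_ (h9.trans ?_)
    · rfl
    · refine sum_congr rfl fun y _ => ?_
      rw [← card_powersetCard]
      congr 1
      ext S
      unfold Finset.bipartiteBelow
      simp only [mem_filter, mem_powersetCard, subset_univ, true_and, F]
      constructor
      · rintro ⟨h, h'⟩
        exact ⟨fun x hx => mem_filter.2 ⟨mem_univ _, h' x hx⟩, h⟩
      · rintro ⟨h, h'⟩
        exact ⟨h', fun x hx => (mem_filter.1 (h hx)).2⟩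
  by_contra hcon
  push Not at hcon
  have hfac : (0 : ℝ) < t.factorial := by exact_mod_cast t.factorial_pos
  have h10 : ∀ S ∈ powersetCard t (univ : Finset V),
      ((N S).card : ℝ) ≤ (ε / 4) ^ (t + 1) * (n : ℝ) ^ r := by
    intro S hS
    refine (hcon S (N S) (mem_powersetCard.1 hS).2 ?_).le
    intro y hy x hx
    exact (mem_filter.1 hy).2 x hx
  have h11 : (∑ S ∈ powersetCard t (univ : Finset V), ((N S).card : ℝ)) ≤
      (n : ℝ) ^ t / t.factorial * ((ε / 4) ^ (t + 1) * (n : ℝ) ^ r) := by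
    refine (sum_le_sum h10).trans ?_
    rw [sum_const, nsmul_eq_mul, card_powersetCard, card_univ]
    refine mul_le_mul_of_nonneg_right ?_ (by positivity)
    exact Nat.choose_le_pow_div t n
  have h12 : (Y.card : ℝ) * ((ε / 4 * n) ^ t / t.factorial) ≤
      ∑ y : Fin r → V, ((F y).card.choose t : ℝ) := by
    have h13 : ∀ y ∈ Y, (ε / 4 * n) ^ t / t.factorial ≤ ((F y).card.choose t : ℝ) := by
      intro y hy
      have h14 : ε / 2 * (n : ℝ) ≤ (F y).card := (mem_filter.1 hy).2
      have h15 : t ≤ (F y).card := by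
        have : (t : ℝ) ≤ (F y).card := by nlinarith
        exact_mod_cast this
      have h16 : (((F y).card + 1 - t : ℕ) : ℝ) = (F y).card + 1 - t := by
        rw [Nat.cast_sub (by omega)]
        push_cast
        ring
      have h17 : ε / 4 * (n : ℝ) ≤ (((F y).card + 1 - t : ℕ) : ℝ) := by
        rw [h16]
        nlinarith
      rw [div_le_iff₀ hfac]
      have h18 : ((((F y).card + 1 - t : ℕ) : ℝ)) ^ t ≤ (t.factorial : ℝ) * ((F y).card.choose t : ℝ) := by
        have h19 : ((F y).card + 1 - t) ^ t ≤ t.factorial * (F y).card.choose t := by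
          rw [← Nat.descFactorial_eq_factorial_mul_choose]
          exact Nat.pow_sub_le_descFactorial _ _
        exact_mod_cast h19
      have h20 : (ε / 4 * (n : ℝ)) ^ t ≤ ((((F y).card + 1 - t : ℕ) : ℝ)) ^ t :=
        pow_le_pow_left₀ (by positivity) h17 t
      linarith
    calc (Y.card : ℝ) * ((ε / 4 * n) ^ t / t.factorial)
        = ∑ y ∈ Y, (ε / 4 * n) ^ t / t.factorial := by rw [sum_const, nsmul_eq_mul]
      _ ≤ ∑ y ∈ Y, ((F y).card.choose t : ℝ) := sum_le_sum h13
      _ ≤ ∑ y : Fin r → V, ((F y).card.choose t : ℝ) :=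
        sum_le_sum_of_subset_of_nonneg (subset_univ _) fun _ _ _ => Nat.cast_nonneg _
  have h21 : (∑ S ∈ powersetCard t (univ : Finset V), ((N S).card : ℝ)) =
      ∑ y : Fin r → V, ((F y).card.choose t : ℝ) := by exact_mod_cast h8
  have h22 : ε / 2 * (n : ℝ) ^ r * ((ε / 4 * n) ^ t / t.factorial) ≤
      (n : ℝ) ^ t / t.factorial * ((ε / 4) ^ (t + 1) * (n : ℝ) ^ r) := by
    refine (mul_le_mul_of_nonneg_right h4 (by positivity)).trans (h12.trans ?_)
    rw [← h21]
    exact h11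
  have h23 : ε / 2 * (n : ℝ) ^ r * ((ε / 4 * n) ^ t / t.factorial) =
      2 * ((n : ℝ) ^ t / t.factorial * ((ε / 4) ^ (t + 1) * (n : ℝ) ^ r)) := by
    rw [mul_pow]
    ring
  rw [h23] at h22
  have h24 : 0 < (n : ℝ) ^ t / t.factorial * ((ε / 4) ^ (t + 1) * (n : ℝ) ^ r) := by positivity
  linarith

theorem aux (t : ℕ) (ht : 1 ≤ t) : ∀ r : ℕ, ∃ K C : ℕ, ∀ (V : Type) [Fintype V]
    (H : Finset (Fin r → V)) (ε : ℝ), 0 < ε → ε ≤ 1 → (C : ℝ) ≤ ε ^ K * Fintype.card V →
    ε * (Fintype.card V : ℝ) ^ r ≤ H.card →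
    ∃ A : Fin r → Finset V, (∀ i, (A i).card = t) ∧
      ∀ f : Fin r → V, (∀ i, f i ∈ A i) → f ∈ H := by
  intro r
  induction r with
  | zero =>
    refine ⟨0, 0, fun V _ H ε hε hε1 _ hH => ⟨fun i => i.elim0, fun i => i.elim0, fun f _ => ?_⟩⟩
    have h1 : (0 : ℝ) < H.card := by
      rw [pow_zero, mul_one] at hH
      linarith
    have h2 : 0 < H.card := by exact_mod_cast h1
    obtain ⟨g, hg⟩ := card_pos.1 h2
    have h3 : f = g := funext fun i => i.elim0
    rw [h3]
    exact hg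
  | succ r ih =>
    obtain ⟨K, C, h⟩ := ih
    refine ⟨(t + 1) * K + 1, 4 ^ ((t + 1) * K) * C + 4 * t, ?_⟩
    intro V _ H ε hε hε1 hC hH
    push_cast at hC
    have hn0 : (0 : ℝ) ≤ Fintype.card V := Nat.cast_nonneg _
    have h1 : ε ^ ((t + 1) * K + 1) * (Fintype.card V : ℝ) ≤ ε * Fintype.card V := by
      refine mul_le_mul_of_nonneg_right ?_ hn0
      calc ε ^ ((t + 1) * K + 1) ≤ ε ^ 1 := pow_le_pow_of_le_one hε.le hε1 (by omega)
        _ = ε := pow_one ε
    have h2 : ε ^ ((t + 1) * K + 1) * (Fintype.card V : ℝ) ≤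
        ε ^ ((t + 1) * K) * Fintype.card V := by
      refine mul_le_mul_of_nonneg_right ?_ hn0
      exact pow_le_pow_of_le_one hε.le hε1 (by omega)
    have h3 : (0 : ℝ) ≤ 4 ^ ((t + 1) * K) * C := by positivity
    have h3' : (0 : ℝ) ≤ 4 * t := by positivity
    obtain ⟨S, H', hS, hH', hc⟩ := step t r V H ε hε hε1 ht (by linarith) hH
    obtain ⟨A, hA, hA'⟩ := h V H' ((ε / 4) ^ (t + 1)) (by positivity)
      (pow_le_one₀ (by positivity) (by linarith)) (by
        rw [← pow_mul, div_pow]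
        have h4 : (0 : ℝ) < 4 ^ ((t + 1) * K) := by positivity
        rw [div_mul_eq_mul_div, le_div_iff₀ h4]
        linarith) hc
    refine ⟨Fin.cons S A, fun i => ?_, fun f hf => ?_⟩
    · refine Fin.cases ?_ (fun i => ?_) i
      · exact hS
      · exact hA i
    · have h5 : Fin.tail f ∈ H' := hA' _ fun i => hf i.succ
      have h6 := hH' _ h5 (f 0) (hf 0)
      rwa [Fin.cons_self_tail] at h6

theorem box : SBOX := by
  intro r t hr ht
  obtain ⟨K, C, h⟩ := aux t ht r
  have hK : (0 : ℝ) ≤ K := Nat.cast_nonneg _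
  refine ⟨1 / (2 * ((K : ℝ) + 1)), by positivity, ?_, C ^ 2 + 1, ?_⟩
  · rw [div_le_one (by positivity)]
    linarith
  intro V _ H hn hH
  set n : ℕ := Fintype.card V with hnd
  set β : ℝ := 1 / (2 * ((K : ℝ) + 1)) with hβ
  have hn1 : (1 : ℝ) ≤ n := by
    have : 1 ≤ n := by omega
    exact_mod_cast this
  have hn0 : (0 : ℝ) < n := by linarith
  have hβ0 : 0 < β := by positivity
  have hKβ : (K : ℝ) * β ≤ 1 / 2 := by
    rw [hβ, mul_one_div, div_le_iff₀ (by positivity)]
    linarith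
  refine h V H ((n : ℝ) ^ (-β)) (Real.rpow_pos_of_pos hn0 _)
    (Real.rpow_le_one_of_one_le_of_nonpos hn1 (by linarith)) ?_ ?_
  · have h1 : ((n : ℝ) ^ (-β)) ^ K * (n : ℝ) = (n : ℝ) ^ (1 - (K : ℝ) * β) := by
      rw [← Real.rpow_natCast, ← Real.rpow_mul hn0.le]
      nth_rewrite 2 [← Real.rpow_one (n : ℝ)]
      rw [← Real.rpow_add hn0]
      congr 1
      ring
    rw [← hnd, h1]
    have h2 : (n : ℝ) ^ (1 / 2 : ℝ) ≤ (n : ℝ) ^ (1 - (K : ℝ) * β) :=
      Real.rpow_le_rpow_of_exponent_le hn1 (by linarith)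
    refine le_trans ?_ h2
    rw [← Real.sqrt_eq_rpow]
    refine Real.le_sqrt_of_sq_le ?_
    have h3 : C ^ 2 ≤ n := by omega
    exact_mod_cast h3
  · have h1 : (n : ℝ) ^ (-β) * (n : ℝ) ^ r = (n : ℝ) ^ ((r : ℝ) - β) := by
      rw [← Real.rpow_natCast (n : ℝ) r, ← Real.rpow_add hn0]
      congr 1
      ring
    rw [← hnd, h1]
    exact hH.le

end R59.DA.Box
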